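import Pool.Agent.W500.CS.Stm2

set_option autoImplicit false

open MeasureTheory Polynomial Metric Set Filter Topology
open scoped ComplexConjugate

namespace Pool.Agent.W828.CQ

open Pool.Agent.W500.CS
open Pool.Agent.H586R3.CT (CT measurable_CT)

lemma dense_ineq (d : ℕ) (P : Fin d → ℂ) (D : Set ((Fin d → ℝ) × ℝ × ℂ)) (hD : Dense D)
    (h : ∀ x ∈ D, (∀ i, |x.1 i| ≤ x.2.1) →
      |∑ i, x.1 i ^ 2 * (P i * x.2.2).re| ≤ 2 * x.2.1 * |∑ i, x.1 i * (P i * x.2.2).re|) :
    ∀ (lam : Fin d → ℝ) (Λ : ℝ) (v : ℂ), (∀ i, |lam i| ≤ Λ) →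
      |∑ i, lam i ^ 2 * (P i * v).re| ≤ 2 * Λ * |∑ i, lam i * (P i * v).re| := by
  intro lam Λ v hl
  let U : Set ((Fin d → ℝ) × ℝ × ℂ) := {x | ∀ i, |x.1 i| < x.2.1}
  have hU : IsOpen U := by
    have : U = ⋂ i, {x : (Fin d → ℝ) × ℝ × ℂ | |x.1 i| < x.2.1} := by ext x; simp [U]
    rw [this]
    exact isOpen_iInter_of_finite fun i => isOpen_lt (by fun_prop) (by fun_prop)
  let S : Set ((Fin d → ℝ) × ℝ × ℂ) :=
    {x | |∑ i, x.1 i ^ 2 * (P i * x.2.2).re| ≤ 2 * x.2.1 * |∑ i, x.1 i * (P i * x.2.2).re|}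
  have hS : IsClosed S := isClosed_le (by fun_prop) (by fun_prop)
  have hUS : U ⊆ S := by
    refine (hD.open_subset_closure_inter hU).trans ?_
    refine closure_minimal ?_ hS
    rintro x ⟨hx1, hx2⟩
    exact h x hx2 (fun i => (hx1 i).le)
  refine le_of_forall_pos_le_add fun δ hδ => ?_
  set X := |∑ i, lam i ^ 2 * (P i * v).re|
  set Y := |∑ i, lam i * (P i * v).re|
  have hY : 0 ≤ Y := abs_nonneg _
  have hε : 0 < δ / (2 * Y + 1) := by positivity
  have h1 : ((lam, Λ + δ / (2 * Y + 1), v) : (Fin d → ℝ) × ℝ × ℂ) ∈ S :=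
    hUS (fun i => lt_of_le_of_lt (hl i) (by simpa using hε))
  have h2 : X ≤ 2 * (Λ + δ / (2 * Y + 1)) * Y := h1
  have h3 : 2 * (δ / (2 * Y + 1)) * Y ≤ δ := by
    have h4 : 2 * (δ / (2 * Y + 1)) * Y = δ * (2 * Y) / (2 * Y + 1) := by ring
    rw [h4, div_le_iff₀ (by positivity)]
    nlinarith
  nlinarith

section loc
variable {Ω : Set ℂ}

lemma cont_mul {f g : ℂ → ℝ} (hΩ : IsOpen Ω) (hf : ContinuousOn f Ω) (hg : Continuous g)
    (hs : tsupport g ⊆ Ω) : Continuous (fun z => f z * g z) := by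
  refine continuous_iff_continuousAt.2 fun x => ?_
  by_cases hx : x ∈ tsupport g
  · exact (hf.continuousAt (hΩ.mem_nhds (hs hx))).mul hg.continuousAt
  · have h2 : (fun z => f z * g z) =ᶠ[𝓝 x] fun _ => 0 := by
      have h1 : g =ᶠ[𝓝 x] 0 := notMem_tsupport_iff_eventuallyEq.1 hx
      filter_upwards [h1] with z hz
      rw [hz]; simp
    exact continuousAt_const.congr h2.symm

lemma cd_mul {f g : ℂ → ℝ} (hΩ : IsOpen Ω) (hf : ContDiffOn ℝ 1 f Ω) (hg : ContDiff ℝ 1 g)
    (hs : tsupport g ⊆ Ω) : ContDiff ℝ 1 (fun z => f z * g z) := by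
  refine contDiff_iff_contDiffAt.2 fun x => ?_
  by_cases hx : x ∈ tsupport g
  · exact (hf.contDiffAt (hΩ.mem_nhds (hs hx))).mul hg.contDiffAt
  · have h2 : (fun z => f z * g z) =ᶠ[𝓝 x] fun _ => 0 := by
      have h1 : g =ᶠ[𝓝 x] 0 := notMem_tsupport_iff_eventuallyEq.1 hx
      filter_upwards [h1] with z hz
      rw [hz]; simp
    exact contDiffAt_const.congr_of_eventuallyEq h2

end loc

lemma E_meas (μ : Measure ℂ) [IsFiniteMeasure μ] {A : ℂ → ℂ} {z₁ : ℂ} {r : ℝ}
    (hA : DifferentiableOn ℂ A (ball z₁ r)) :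
    MeasurableSet {z | z ∈ ball z₁ r ∧ CT μ z = A z} := by
  classical
  have h1 : {z | z ∈ ball z₁ r ∧ CT μ z = A z}
      = ball z₁ r ∩ {z | CT μ z = (ball z₁ r).indicator A z} := by
    ext z
    constructor
    · rintro ⟨h1, h2⟩
      refine ⟨h1, ?_⟩
      change CT μ z = (ball z₁ r).indicator A z
      rw [indicator_of_mem h1]
      exact h2
    · rintro ⟨h1, h2⟩
      refine ⟨h1, ?_⟩
      change CT μ z = (ball z₁ r).indicator A z at h2
      rw [indicator_of_mem h1] at h2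
      exact h2
  rw [h1]
  apply measurableSet_ball.inter
  apply measurableSet_eq_fun (measurable_CT μ)
  have h3 : Measurable ((ball z₁ r).piecewise A (fun _ => 0)) :=
    ContinuousOn.measurable_piecewise hA.continuousOn continuousOn_const measurableSet_ball
  have h5 : (ball z₁ r).piecewise A (fun _ => 0) = (ball z₁ r).indicator A := by
    funext z
    by_cases hz : z ∈ ball z₁ r
    · rw [piecewise_eq_of_mem _ _ _ hz, indicator_of_mem hz]
    · rw [piecewise_eq_of_notMem _ _ _ hz, indicator_of_notMem hz]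
  rw [← h5]
  exact h3

lemma hasF {A : ℂ → ℂ} {z₁ : ℂ} {r : ℝ} (hA : DifferentiableOn ℂ A (ball z₁ r)) (v z : ℂ)
    (hz : z ∈ ball z₁ r) :
    HasFDerivAt (fun z => (A z * v).re) (gr (deriv A z * v)) z := by
  have h1 : HasDerivAt (fun z => A z * v) (deriv A z * v) z :=
    ((hA.differentiableAt (isOpen_ball.mem_nhds hz)).hasDerivAt).mul_const v
  have h2 := (Complex.reCLM.hasFDerivAt (x := A z * v)).comp z (h1.hasFDerivAt.restrictScalars ℝ)
  refine h2.congr_fderiv ?_
  ext u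
  simp [gr_apply]
  ring

theorem main : S_BVB → S_RN → S_CHN → S_ALG → S_REL → S_HESS := by
  intro hBVB hRN hCHN hALG hREL μ _ d A z₁ r r' hr' hrr hA hne hae
  set r1 : ℝ := (r' + r) / 2 with hr1
  have h1 : r' < r1 := by rw [hr1]; linarith
  have h2 : r1 < r := by rw [hr1]; linarith
  have h3 : 0 < r1 := hr'.trans h1
  set E : Fin d → Set ℂ := fun i => {z | z ∈ ball z₁ r ∧ CT μ z = A i z} with hE
  have hEm : ∀ i, MeasurableSet (E i) := fun i => E_meas μ (hA i)
  have hEd : ∀ i j, i ≠ j → Disjoint (E i) (E j) := by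
    intro i j hij
    rw [Set.disjoint_left]
    rintro z ⟨hz, hi⟩ ⟨-, hj⟩
    exact hne i j hij z hz (hi.symm.trans hj)
  obtain ⟨C0, hC0⟩ := hBVB μ d A z₁ r r1 h3 h2 hA hne hae
  have hP : ∀ i, ∃ (P : ℂ → ℂ) (M : ℝ), Measurable P ∧ (∀ z, ‖P z‖ ≤ M) ∧
      ∀ φ : ℂ → ℝ, ContDiff ℝ 1 φ → HasCompactSupport φ → tsupport φ ⊆ ball z₁ r1 → ∀ v : ℂ,
      - ∫ z in E i, fderiv ℝ φ z v = ∫ z, φ z * (P z * v).re ∂μ := fun i =>
    hRN μ (E i) z₁ r1 C0 h3 (hEm i) (hC0 i)
  choose P Mi hPm hPb hPi using hP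
  set M : ℝ := ∑ i, |Mi i| with hM
  have hPM : ∀ i z, ‖P i z‖ ≤ M := fun i z => (hPb i z).trans ((le_abs_self _).trans
    (Finset.single_le_sum (f := fun i => |Mi i|) (fun _ _ => abs_nonneg _) (Finset.mem_univ i)))
  obtain ⟨D, hDc, hDd⟩ := TopologicalSpace.exists_countable_dense ((Fin d → ℝ) × ℝ × ℂ)
  have hae1 : ∀ᵐ z ∂μ, ∀ x ∈ D, (∀ i, |x.1 i| ≤ x.2.1) → z ∈ ball z₁ r1 →
      |∑ i, x.1 i ^ 2 * (P i z * x.2.2).re| ≤ 2 * x.2.1 * |∑ i, x.1 i * (P i z * x.2.2).re| := by
    rw [ae_ball_iff hDc]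
    intro x hx
    by_cases hxl : ∀ i, |x.1 i| ≤ x.2.1
    · filter_upwards [hCHN μ d E P z₁ r1 M h3 hEm hEd hPm hPM hPi x.1 x.2.1 x.2.2 hxl]
        with z hz _ hzb
      exact hz hzb
    · exact Filter.Eventually.of_forall fun z hz => absurd hz hxl
  have hae2 := hREL μ d A P z₁ r r1 M h3 h2 hA hne hae hPm hPM hPi
  have hpos : ∀ᵐ z ∂μ, z ∈ ball z₁ r1 → ∀ v : ℂ, 0 ≤ ∑ i, (A i z * v).re * (P i z * v).re := by
    filter_upwards [hae1, hae2] with z hz1 hz2 hzb v
    obtain ⟨e1, e2⟩ := hz2 hzb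
    refine hALG d (fun i => A i z) (fun i => P i z) (2 * Real.pi) (by positivity) e1 e2 ?_ v
    exact dense_ineq d (fun i => P i z) D hDd (fun x hx hxl => hz1 x hx hxl hzb)
  have hCi : ∀ i, ∃ Ci : ℝ, 0 ≤ Ci ∧ ∀ z ∈ closedBall z₁ r', ‖deriv (A i) z‖ ≤ Ci := by
    intro i
    have hc : ContinuousOn (deriv (A i)) (closedBall z₁ r') :=
      ((hA i).deriv isOpen_ball).continuousOn.mono (closedBall_subset_ball hrr)
    obtain ⟨Ci, hCi⟩ := (isCompact_closedBall z₁ r').exists_bound_of_continuousOn hc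
    exact ⟨|Ci|, abs_nonneg _, fun z hz => (hCi z hz).trans (le_abs_self _)⟩
  choose Ci hCi0 hCib using hCi
  refine ⟨∑ i, Ci i, fun v φ hφ hφc hφ0 hφs => ?_⟩
  have hφ1 : ContDiff ℝ 1 φ := hφ.of_le (by norm_num)
  have hsub : tsupport φ ⊆ ball z₁ r := hφs.trans (ball_subset_ball hrr.le)
  have hsub1 : tsupport φ ⊆ ball z₁ r1 := hφs.trans (ball_subset_ball h1.le)
  have hf1 : ∀ i, ContDiffOn ℝ 1 (fun z => (A i z * v).re) (ball z₁ r) := by
    intro i
    have e1 : ContDiffOn ℂ 1 (A i) (ball z₁ r) := (hA i).contDiffOn isOpen_ball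
    have e2 : ContDiffOn ℝ 1 (fun z => A i z * v) (ball z₁ r) :=
      (e1.restrict_scalars ℝ).mul contDiffOn_const
    exact Complex.reCLM.contDiff.comp_contDiffOn e2
  have hf2 : ∀ i, ContinuousOn (fun z => (deriv (A i) z * v * v).re) (ball z₁ r) := by
    intro i
    have e1 : ContinuousOn (deriv (A i)) (ball z₁ r) := ((hA i).deriv isOpen_ball).continuousOn
    exact Complex.continuous_re.comp_continuousOn ((e1.mul continuousOn_const).mul continuousOn_const)
  have hdφ : Continuous (fun z => fderiv ℝ φ z v) :=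
    (hφ1.continuous_fderiv (by norm_num)).clm_apply continuous_const
  have hdφc : HasCompactSupport (fun z => fderiv ℝ φ z v) := hφc.fderiv_apply ℝ v
  have hdφs : tsupport (fun z => fderiv ℝ φ z v) ⊆ ball z₁ r :=
    (tsupport_fderiv_apply_subset ℝ v).trans hsub
  -- the functions
  have hψ : ∀ i, ContDiff ℝ 1 (fun z => (A i z * v).re * φ z) := fun i =>
    cd_mul isOpen_ball (hf1 i) hφ1 hsub
  have hψc : ∀ i, HasCompactSupport (fun z => (A i z * v).re * φ z) := fun i => hφc.mul_left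
  have hψs : ∀ i, tsupport (fun z => (A i z * v).re * φ z) ⊆ ball z₁ r1 := fun i =>
    (tsupport_mul_subset_right).trans hsub1
  have hg : ∀ i, Continuous (fun z => (A i z * v).re * fderiv ℝ φ z v) := fun i =>
    cont_mul isOpen_ball (hf1 i).continuousOn hdφ hdφs
  have hgc : ∀ i, HasCompactSupport (fun z => (A i z * v).re * fderiv ℝ φ z v) := fun i =>
    hdφc.mul_left
  have hh : ∀ i, Continuous (fun z => (deriv (A i) z * v * v).re * φ z) := fun i =>
    cont_mul isOpen_ball (hf2 i) hφ1.continuous hsub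
  have hhc : ∀ i, HasCompactSupport (fun z => (deriv (A i) z * v * v).re * φ z) := fun i =>
    hφc.mul_left
  have hgI : ∀ i, Integrable (fun z => (A i z * v).re * fderiv ℝ φ z v) := fun i =>
    (hg i).integrable_of_hasCompactSupport (hgc i)
  have hhI : ∀ i, Integrable (fun z => (deriv (A i) z * v * v).re * φ z) := fun i =>
    (hh i).integrable_of_hasCompactSupport (hhc i)
  have hφI : Integrable φ := hφ1.continuous.integrable_of_hasCompactSupport hφc
  have hψd : ∀ i z, fderiv ℝ (fun z => (A i z * v).re * φ z) z v =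
      (A i z * v).re * fderiv ℝ φ z v + (deriv (A i) z * v * v).re * φ z := by
    intro i z
    by_cases hz : z ∈ ball z₁ r
    · have e1 := hasF (hA i) v z hz
      have e2 : HasFDerivAt φ (fderiv ℝ φ z) z :=
        (hφ1.differentiable (by norm_num) z).hasFDerivAt
      have e3 := e1.mul e2
      have e4 : fderiv ℝ (fun z => (A i z * v).re * φ z) z =
          (A i z * v).re • fderiv ℝ φ z + φ z • gr (deriv (A i) z * v) := e3.fderiv
      rw [e4]
      simp only [ContinuousLinearMap.add_apply, ContinuousLinearMap.smul_apply, smul_eq_mul,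
        gr_apply]
      ring
    · have hzn : z ∉ tsupport φ := fun h => hz (hsub h)
      have e1 : φ =ᶠ[𝓝 z] 0 := notMem_tsupport_iff_eventuallyEq.1 hzn
      have e2 : (fun z => (A i z * v).re * φ z) =ᶠ[𝓝 z] fun _ => (0 : ℝ) := by
        filter_upwards [e1] with w hw
        rw [hw]; simp
      have e3 : φ =ᶠ[𝓝 z] fun _ => (0 : ℝ) := e1
      have e4 : φ z = 0 := e1.self_of_nhds
      rw [e2.fderiv_eq, e3.fderiv_eq, e4]
      simp
  have ha : ∀ i, - ∫ z in E i, fderiv ℝ (fun z => (A i z * v).re * φ z) z v =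
      ∫ z, ((A i z * v).re * φ z) * (P i z * v).re ∂μ := fun i =>
    hPi i _ (hψ i) (hψc i) (hψs i) v
  have hb : ∫ z, (CT μ z * v).re * fderiv ℝ φ z v =
      ∑ i, ∫ z in E i, (A i z * v).re * fderiv ℝ φ z v := by
    have e1 : (fun z => (CT μ z * v).re * fderiv ℝ φ z v) =ᵐ[volume]
        fun z => ∑ i, (E i).indicator (fun z => (A i z * v).re * fderiv ℝ φ z v) z := by
      filter_upwards [hae] with z hz
      by_cases hzb : z ∈ ball z₁ r
      · obtain ⟨i, hi⟩ := hz hzb
        have hzi : z ∈ E i := ⟨hzb, hi⟩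
        rw [Finset.sum_eq_single i]
        · rw [indicator_of_mem hzi, hi]
        · intro j _ hj
          refine indicator_of_notMem ?_ _
          intro hzj
          exact (Set.disjoint_left.1 (hEd j i hj)) hzj hzi
        · intro h
          exact absurd (Finset.mem_univ i) h
      · have e2 : fderiv ℝ φ z v = 0 := by
          have : z ∉ tsupport (fun z => fderiv ℝ φ z v) := fun h => hzb (hdφs h)
          exact image_eq_zero_of_notMem_tsupport (f := fun z => fderiv ℝ φ z v) this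
        rw [e2, mul_zero]
        symm
        refine Finset.sum_eq_zero fun i _ => ?_
        exact indicator_of_notMem (fun h => hzb h.1) _
    rw [integral_congr_ae e1, integral_finsetSum]
    · refine Finset.sum_congr rfl fun i _ => ?_
      rw [integral_indicator (hEm i)]
    · intro i _
      exact (hgI i).indicator (hEm i)
  have hc : ∀ i, ∫ z in E i, (A i z * v).re * fderiv ℝ φ z v =
      (∫ z in E i, fderiv ℝ (fun z => (A i z * v).re * φ z) z v) -
        ∫ z in E i, (deriv (A i) z * v * v).re * φ z := by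
    intro i
    have e1 : ∫ z in E i, fderiv ℝ (fun z => (A i z * v).re * φ z) z v =
        (∫ z in E i, (A i z * v).re * fderiv ℝ φ z v) +
          ∫ z in E i, (deriv (A i) z * v * v).re * φ z := by
      rw [← integral_add (hgI i).integrableOn (hhI i).integrableOn]
      refine integral_congr_ae (Filter.Eventually.of_forall fun z => ?_)
      exact hψd i z
    rw [e1]; ring
  have hd : - ∫ z, (CT μ z * v).re * fderiv ℝ φ z v =
      (∑ i, ∫ z, ((A i z * v).re * φ z) * (P i z * v).re ∂μ) +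
        ∑ i, ∫ z in E i, (deriv (A i) z * v * v).re * φ z := by
    rw [hb, ← Finset.sum_neg_distrib, ← Finset.sum_add_distrib]
    refine Finset.sum_congr rfl fun i _ => ?_
    rw [hc i, ← ha i]; ring
  have hI : ∀ i, Integrable (fun z => ((A i z * v).re * φ z) * (P i z * v).re) μ := by
    intro i
    have e1 : Integrable (fun z => (A i z * v).re * φ z) μ :=
      (hψ i).continuous.integrable_of_hasCompactSupport (hψc i)
    refine e1.mul_bdd (c := M * ‖v‖) ?_ ?_
    · exact (Complex.measurable_re.comp ((hPm i).mul measurable_const)).aestronglyMeasurable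
    · refine Filter.Eventually.of_forall fun z => ?_
      refine (Complex.abs_re_le_norm _).trans ?_
      rw [norm_mul]
      exact mul_le_mul_of_nonneg_right (hPM i z) (norm_nonneg _)
  have he : 0 ≤ ∑ i, ∫ z, ((A i z * v).re * φ z) * (P i z * v).re ∂μ := by
    rw [← integral_finsetSum _ (fun i _ => hI i)]
    refine integral_nonneg_of_ae ?_
    filter_upwards [hpos] with z hz
    by_cases hzb : z ∈ ball z₁ r1
    · have e1 := mul_nonneg (hφ0 z) (hz hzb v)
      rw [Finset.mul_sum] at e1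
      refine e1.trans (le_of_eq (Finset.sum_congr rfl fun i _ => ?_))
      ring
    · have e1 : φ z = 0 := image_eq_zero_of_notMem_tsupport fun h => hzb (hsub1 h)
      refine le_of_eq ?_
      symm
      refine Finset.sum_eq_zero fun i _ => ?_
      rw [e1]; ring
  have hf : ∀ i, - (Ci i * ‖v‖ ^ 2) * ∫ z, φ z ≤ ∫ z in E i, (deriv (A i) z * v * v).re * φ z := by
    intro i
    have e1 : ∫ z in E i, (-(Ci i * ‖v‖ ^ 2)) * φ z ≤
        ∫ z in E i, (deriv (A i) z * v * v).re * φ z := by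
      refine setIntegral_mono (hφI.const_mul _).integrableOn (hhI i).integrableOn fun z => ?_
      by_cases hz : z ∈ tsupport φ
      · have e2 : ‖deriv (A i) z‖ ≤ Ci i := hCib i z (ball_subset_closedBall (hφs hz))
        have e3 : |(deriv (A i) z * v * v).re| ≤ Ci i * ‖v‖ ^ 2 := by
          refine (Complex.abs_re_le_norm _).trans ?_
          rw [norm_mul, norm_mul, mul_assoc, ← pow_two]
          exact mul_le_mul_of_nonneg_right e2 (by positivity)
        exact mul_le_mul_of_nonneg_right (abs_le.1 e3).1 (hφ0 z)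
      · have e1 : φ z = 0 := image_eq_zero_of_notMem_tsupport hz
        simp [e1]
    refine le_trans ?_ e1
    rw [integral_const_mul]
    have e4 : ∫ z in E i, φ z ≤ ∫ z, φ z :=
      setIntegral_le_integral hφI (Filter.Eventually.of_forall hφ0)
    have e5 : 0 ≤ Ci i * ‖v‖ ^ 2 := mul_nonneg (hCi0 i) (by positivity)
    nlinarith
  rw [hd]
  have hfin : - ((∑ i, Ci i) * ‖v‖ ^ 2) * ∫ z, φ z ≤
      ∑ i, ∫ z in E i, (deriv (A i) z * v * v).re * φ z := by
    have e1 : - ((∑ i, Ci i) * ‖v‖ ^ 2) * ∫ z, φ z = ∑ i, (- (Ci i * ‖v‖ ^ 2) * ∫ z, φ z) := by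
      rw [Finset.sum_mul, ← Finset.sum_neg_distrib, Finset.sum_mul]
    rw [e1]
    exact Finset.sum_le_sum fun i _ => hf i
  linarith

end Pool.Agent.W828.CQ
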